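import Pool.Agent.H36.PX.Base

/-!
# IdxD : the index hypothesis over every field of characteristic `p` with a discrete valuation

If `k` has odd characteristic `p` and is the fraction field of a Dedekind domain which is not a
field, there is `t` in `k` such that every point of the curve
`z^p = t^2 x^(p-1) z + t y^p + t^2 x y^(p-1) + t^2 x^p` in a finite extension of `k` has degree
divisible by `p`.
-/

set_option autoImplicit false

namespace H36.PX

open WithZero Module IsDedekindDomain Polynomial

theorem index_pow_ne {p : ℕ} (hp : 0 < p) {a b : ℤᵐ⁰} {e : ℤ} (he : ¬ (p : ℤ) ∣ e)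
    (h : a ^ p = exp e * b ^ p) : a = 0 ∧ b = 0 := by
  by_cases ha : a = 0
  · subst ha
    refine ⟨rfl, ?_⟩
    have h1 : exp e * b ^ p = 0 := by rw [← h, zero_pow hp.ne']
    rcases mul_eq_zero.1 h1 with h2 | h2
    · exact absurd h2 exp_ne_zero
    · exact (pow_eq_zero_iff hp.ne').1 h2
  · by_cases hb : b = 0
    · subst hb
      have h1 : a ^ p = 0 := by rw [h, zero_pow hp.ne', mul_zero]
      exact absurd ((pow_eq_zero_iff hp.ne').1 h1) ha
    · exfalso
      obtain ⟨α, rfl⟩ : ∃ α : ℤ, a = exp α := ⟨log a, (exp_log ha).symm⟩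
      obtain ⟨β, rfl⟩ : ∃ β : ℤ, b = exp β := ⟨log b, (exp_log hb).symm⟩
      rw [← exp_nsmul, ← exp_nsmul, ← exp_add] at h
      have h2 := exp_injective h
      simp only [nsmul_eq_mul] at h2
      exact he ⟨α - β, by rw [mul_sub]; linarith⟩

theorem index_val_contra {p : ℕ} (hp : p.Prime) (hp3 : 3 ≤ p) {L : Type} [Field L]
    (v : Valuation L ℤᵐ⁰) (t : L) (e : ℤ)
    (ht : v t = exp (-e)) (he : ¬ (p : ℤ) ∣ e) (he0 : 0 < e) (x y z : L)
    (hne : x ≠ 0 ∨ y ≠ 0 ∨ z ≠ 0)
    (hrel : z ^ p = t ^ 2 * x ^ (p - 1) * z + t * y ^ p + t ^ 2 * x * y ^ (p - 1)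
      + t ^ 2 * x ^ p) : False := by
  have hp0 : 0 < p := by omega
  have hp1 : p - 1 + 1 = p := by omega
  have hτ1 : v t < 1 := by rw [ht, ← exp_zero, exp_lt_exp]; omega
  have hτ0 : v t ≠ 0 := by rw [ht]; exact exp_ne_zero
  have ht0 : t ≠ 0 := fun h => hτ0 (by rw [h]; simp)
  set A := v (z ^ p) with hA
  set B := v (t * y ^ p) with hB
  set C := v (t ^ 2 * x ^ p) with hC
  -- pairwise distinct
  have hAB : A = B → A = 0 := by
    intro h
    rw [hA, hB, map_pow, map_mul, map_pow, ht] at h
    have := index_pow_ne hp0 (e := -e) (by rwa [dvd_neg]) h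
    rw [hA, map_pow, this.1, zero_pow hp0.ne']
  have h2e : ¬ (p : ℤ) ∣ (2 • (-e) : ℤ) := by
    intro h3
    simp only [nsmul_eq_mul, Nat.cast_ofNat, mul_neg, dvd_neg] at h3
    rcases (Nat.prime_iff_prime_int.1 hp).dvd_or_dvd h3 with h4 | h4
    · have h5 : p ∣ 2 := by exact_mod_cast h4
      have := Nat.le_of_dvd (by norm_num) h5
      omega
    · exact he h4
  have hAC : A = C → A = 0 := by
    intro h
    rw [hA, hC, map_pow, map_mul, map_pow, map_pow, ht, ← exp_nsmul] at h
    have := index_pow_ne hp0 (e := 2 • (-e)) h2e h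
    rw [hA, map_pow, this.1, zero_pow hp0.ne']
  have hBC : B = C → B = 0 := by
    intro h
    rw [hB, hC, map_mul, map_mul, map_pow, map_pow, map_pow, ht, ← exp_nsmul] at h
    have h' : v y ^ p = exp (-e) * v x ^ p := by
      have h2 : exp (-e) * (v y ^ p) = exp (-e) * (exp (-e) * v x ^ p) := by
        rw [h, ← mul_assoc, ← exp_add]; congr 2; simp only [nsmul_eq_mul, Nat.cast_ofNat]; ring_nf
      exact mul_left_cancel₀ exp_ne_zero h2
    have := index_pow_ne hp0 (e := -e) (by rwa [dvd_neg]) h'
    rw [hB, map_mul, map_pow, this.1, zero_pow hp0.ne', mul_zero]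
  set m := max A (max B C) with hm
  have hAm : A ≤ m := le_max_left _ _
  have hBm : B ≤ m := le_trans (le_max_left _ _) (le_max_right _ _)
  have hCm : C ≤ m := le_trans (le_max_right _ _) (le_max_right _ _)
  have hm0 : 0 < m := by
    rcases hne with h | h | h
    · refine lt_of_lt_of_le ?_ hCm
      rw [hC, Valuation.pos_iff]; exact mul_ne_zero (pow_ne_zero _ ht0) (pow_ne_zero _ h)
    · refine lt_of_lt_of_le ?_ hBm
      rw [hB, Valuation.pos_iff]; exact mul_ne_zero ht0 (pow_ne_zero _ h)
    · refine lt_of_lt_of_le ?_ hAm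
      rw [hA, Valuation.pos_iff]; exact pow_ne_zero _ h
  have hτm : ∀ j : ℕ, j ≠ 0 → v t ^ j * m ^ p < m ^ p := by
    intro j hj
    have h1 : v t ^ j < 1 := pow_lt_one₀ zero_le hτ1 hj
    calc v t ^ j * m ^ p < 1 * m ^ p := by
          exact mul_lt_mul_of_pos_right h1 (pow_pos hm0 p)
      _ = m ^ p := one_mul _
  have hmp : m ^ p = m ^ (p - 1) * m := by rw [← pow_succ, hp1]
  have hS1 : v (t ^ 2 * x ^ (p - 1) * z) < m := by
    have h3 : v (t ^ 2 * x ^ (p - 1) * z) ^ p = v t ^ 2 * (C ^ (p - 1) * A) := by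
      rw [hA, hC, ← map_pow, ← map_pow, ← map_pow, ← map_mul, ← map_mul]
      congr 1
      have e1 : (t ^ 2) ^ p = (t ^ 2) ^ (p - 1) * t ^ 2 := by rw [← pow_succ, hp1]
      rw [mul_pow, mul_pow, mul_pow, e1, ← pow_mul, ← pow_mul, ← pow_mul, mul_comm (p - 1) p]
      ring
    refine lt_of_pow_lt_pow_left₀ p zero_le ?_
    rw [h3]
    refine lt_of_le_of_lt ?_ (hτm 2 two_ne_zero)
    refine mul_le_mul_right ?_ _
    rw [hmp]
    exact mul_le_mul' (pow_le_pow_left₀ zero_le hCm _) hAm
  have hS2 : v (t ^ 2 * x * y ^ (p - 1)) < m := by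
    have h3 : v (t ^ 2 * x * y ^ (p - 1)) ^ p = v t ^ (p - 1) * (B ^ (p - 1) * C) := by
      rw [hB, hC, ← map_pow, ← map_pow, ← map_pow, ← map_mul, ← map_mul]
      congr 1
      have e1 : (t ^ 2) ^ p = t ^ (p - 1) * (t ^ (p - 1) * t ^ 2) := by
        rw [← pow_mul, ← mul_assoc, ← pow_add, ← pow_add]
        congr 1
        omega
      rw [mul_pow, mul_pow, mul_pow, e1, ← pow_mul, ← pow_mul, mul_comm (p - 1) p]
      ring
    refine lt_of_pow_lt_pow_left₀ p zero_le ?_
    rw [h3]
    refine lt_of_le_of_lt ?_ (hτm (p - 1) (by omega))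
    refine mul_le_mul_right ?_ _
    rw [hmp]
    exact mul_le_mul' (pow_le_pow_left₀ zero_le hBm _) hCm
  have hcase : m = A ∨ m = B ∨ m = C := by
    rcases max_choice A (max B C) with h | h
    · exact Or.inl h
    · rcases max_choice B C with h' | h'
      · exact Or.inr (Or.inl (h.trans h'))
      · exact Or.inr (Or.inr (h.trans h'))
  rcases hcase with h | h | h
  · have hB' : B < m := lt_of_le_of_ne hBm fun hh => by
      have := hAB (h.symm.trans hh.symm); rw [← h] at this; exact hm0.ne' this
    have hC' : C < m := lt_of_le_of_ne hCm fun hh => by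
      have := hAC (h.symm.trans hh.symm); rw [← h] at this; exact hm0.ne' this
    have : v (z ^ p) < m := by
      rw [hrel]
      exact Valuation.map_add_lt v (Valuation.map_add_lt v (Valuation.map_add_lt v hS1 hB') hS2) hC'
    exact absurd h (ne_of_gt this)
  · have hA' : A < m := lt_of_le_of_ne hAm fun hh => by
      have h1 := hAB (hh.trans h); rw [hh] at h1; exact hm0.ne' h1
    have hC' : C < m := lt_of_le_of_ne hCm fun hh => by
      have h1 := hBC (h.symm.trans hh.symm); rw [← h] at h1; exact hm0.ne' h1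
    have : v (t * y ^ p) < m := by
      have e1 : t * y ^ p = z ^ p - t ^ 2 * x ^ (p - 1) * z - t ^ 2 * x * y ^ (p - 1)
          - t ^ 2 * x ^ p := by
        rw [hrel]; ring
      rw [e1]
      exact Valuation.map_sub_lt v (Valuation.map_sub_lt v (Valuation.map_sub_lt v hA' hS1) hS2) hC'
    exact absurd h (ne_of_gt this)
  · have hA' : A < m := lt_of_le_of_ne hAm fun hh => by
      have h1 := hAC (hh.trans h); rw [hh] at h1; exact hm0.ne' h1
    have hB' : B < m := lt_of_le_of_ne hBm fun hh => by
      have h1 := hBC (hh.trans h); rw [hh] at h1; exact hm0.ne' h1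
    have : v (t ^ 2 * x ^ p) < m := by
      have e1 : t ^ 2 * x ^ p = z ^ p - t ^ 2 * x ^ (p - 1) * z - t ^ 2 * x * y ^ (p - 1)
          - t * y ^ p := by
        rw [hrel]; ring
      rw [e1]
      exact Valuation.map_sub_lt v (Valuation.map_sub_lt v (Valuation.map_sub_lt v hA' hS1) hS2) hB'
    exact absurd h (ne_of_gt this)

theorem index_separable {p : ℕ} [Fact p.Prime] {K L : Type} [Field K] [CharP K p] [Field L]
    [Algebra K L] [FiniteDimensional K L] (hL : ¬ p ∣ finrank K L) :
    Algebra.IsSeparable K L := by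
  refine ⟨fun α => ?_⟩
  have hint : IsIntegral K α := IsIntegral.of_finite K α
  rcases separable_or p (minpoly.irreducible hint) with h | ⟨_, g, _, hg⟩
  · exact h
  · exfalso
    apply hL
    have h1 : (minpoly K α).natDegree ∣ finrank K L := minpoly.degree_dvd hint
    refine dvd_trans ?_ h1
    rw [← hg, natDegree_expand]
    exact dvd_mul_left _ _

set_option linter.deprecated false in
/-- the index hypothesis for the fraction field of a Dedekind domain -/
theorem index_of_dedekind {p : ℕ} [Fact p.Prime] (hp3 : 3 ≤ p) {A k : Type} [CommRing A]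
    [IsDedekindDomain A] [Field k] [Algebra A k] [IsFractionRing A k] [CharP k p]
    (𝔭 : HeightOneSpectrum A) (t : A) (ht : 𝔭.intValuation t = exp (-1 : ℤ)) :
    IndexP p k (algebraMap A k t) := by
  intro L _ _ _ x y z hne hrel
  by_contra h3
  have hsep : Algebra.IsSeparable k L := index_separable h3
  let : Algebra A L := ((algebraMap k L).comp (algebraMap A k)).toAlgebra
  have : IsScalarTower A k L := IsScalarTower.of_algebraMap_eq fun _ => rfl
  let S := integralClosure A L
  have : IsFractionRing S L :=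
    integralClosure.isFractionRing_of_finite_extension k L
  have : Module.Finite A S := IsIntegralClosure.finite A k L S
  have : IsDedekindDomain S := integralClosure.isDedekindDomain A k L
  have hinj : Function.Injective (algebraMap A S) := by
    have h1 : Function.Injective (algebraMap A L) :=
      (algebraMap k L).injective.comp (IsFractionRing.injective A k)
    exact Function.Injective.of_comp (f := algebraMap S L) h1
  have htf : Module.IsTorsionFree A S := Module.isTorsionFree_iff_algebraMap_injective.2 hinj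
  have hp0 : 𝔭.asIdeal ≠ ⊥ := 𝔭.ne_bot
  have hpmax : 𝔭.asIdeal.IsMaximal := 𝔭.isMaximal
  have hsum := Ideal.sum_ramification_inertia S k L hp0
  obtain ⟨P, hP, hPe⟩ : ∃ P ∈ IsDedekindDomain.primesOverFinset 𝔭.asIdeal S,
      ¬ p ∣ Ideal.ramificationIdx' 𝔭.asIdeal P := by
    by_contra hcon
    push Not at hcon
    apply h3
    rw [← hsum]
    exact Finset.dvd_sum fun P hP => Dvd.dvd.mul_right (hcon P hP) _
  obtain ⟨hPp, hPl⟩ := (IsDedekindDomain.mem_primesOverFinset_iff hp0 _).1 hP
  have hPbot : P ≠ ⊥ := by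
    rintro rfl
    apply hp0
    have h1 := hPl.over
    rw [h1]
    refine (Ideal.comap_bot_of_injective _ ?_)
    exact hinj
  let w : HeightOneSpectrum S := ⟨P, hPp, hPbot⟩
  have hw : w.asIdeal.LiesOver 𝔭.asIdeal := hPl
  have hvt : w.valuation L (algebraMap k L (algebraMap A k t))
      = exp (-((Ideal.ramificationIdx' 𝔭.asIdeal P : ℕ) : ℤ)) := by
    rw [← HeightOneSpectrum.valuation_liesOver (A := A) (K := k) L 𝔭 w,
      HeightOneSpectrum.valuation_of_algebraMap, ht, ← exp_nsmul]
    congr 1
    simp [w]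
  have hn0 : (0 : ℤ) < (Ideal.ramificationIdx' 𝔭.asIdeal P : ℕ) := by
    rcases Nat.eq_zero_or_pos (Ideal.ramificationIdx' 𝔭.asIdeal P) with h | h
    · exact absurd (h ▸ dvd_zero p) hPe
    · exact_mod_cast h
  exact index_val_contra (Fact.out : p.Prime) hp3 (w.valuation L)
    (algebraMap k L (algebraMap A k t)) _ hvt
    (by intro h; apply hPe; exact_mod_cast h) hn0 x y z hne (by simpa only [map_pow] using hrel)

/-- every field of odd characteristic `p` which is the fraction field of a Dedekind domain that is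
not a field (for example of a discrete valuation ring) carries a curve of index `p` -/
theorem exists_indexP (p : ℕ) [Fact p.Prime] (hp3 : 3 ≤ p) (A k : Type) [CommRing A]
    [IsDedekindDomain A] (hA : ¬ IsField A) [Field k] [Algebra A k] [IsFractionRing A k]
    [CharP k p] : ∃ t : k, t ≠ 0 ∧ IndexP p k t := by
  obtain ⟨m, hm⟩ := Ideal.exists_maximal A
  have hbot : m ≠ ⊥ := Ring.ne_bot_of_isMaximal_of_not_isField hm hA
  let 𝔭 : HeightOneSpectrum A := ⟨m, hm.isPrime, hbot⟩
  obtain ⟨t, ht⟩ := 𝔭.intValuation_exists_uniformizer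
  refine ⟨algebraMap A k t, ?_, index_of_dedekind hp3 𝔭 t ht⟩
  intro h
  have h0 : t = 0 := (IsFractionRing.injective A k) (h.trans (map_zero _).symm)
  rw [h0, map_zero] at ht
  exact exp_ne_zero ht.symm

end H36.PX
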